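import Mathlib

/-!
# Deterministic machines with a stack, and the recursive evaluation of circuits: definitions
-/

set_option autoImplicit false

namespace Pool.Agent.V8H39.ST

/-- What a machine does in a configuration (the stack does not belong to the configuration): it
reads the input bit `v` and proceeds to the configuration `nxt b`, `b` being its value; it proceeds
to another configuration; it puts a symbol on the stack; it removes the symbol `a` on the top of the
stack and proceeds to the configuration `nxt a` (if the stack is empty then there is no
computation); or it halts with an output. -/
inductive Act (V S Γ : Type) : Type where
  | read (v : V) (nxt : Bool → S)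
  | jump (q : S)
  | push (a : Γ) (q : S)
  | pop (nxt : Γ → S)
  | halt (b : Bool)

/-- A deterministic machine with a stack and random access to the input bits `V`. There are finitely
many configurations; the stack symbols may be the elements of any type, and there is no bound on the
height of the stack or on the number of steps. -/
structure Mach (V : Type) : Type 1 where
  /-- the configurations -/
  State : Type
  /-- there are finitely many of them -/
  [fintype : Fintype State]
  /-- the stack symbols -/
  Sym : Type
  /-- the initial configuration -/
  start : State
  /-- what is done -/
  act : State → Act V State Sym

attribute [instance] Mach.fintype

variable {V : Type}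

/-- `M.Run w q σ L b`: on the input `w`, from the configuration `q` with the stack `σ`, the machine
`M` reads the bits of the list `L`, in this order, and then halts with the output `b`. -/
inductive Mach.Run (M : Mach V) (w : V → Bool) : M.State → List M.Sym → List V → Bool → Prop
  | halt {q : M.State} {σ : List M.Sym} {b : Bool} (h : M.act q = Act.halt b) : Run M w q σ [] b
  | read {q : M.State} {σ : List M.Sym} {v : V} {nxt : Bool → M.State} {L : List V} {b : Bool}
      (h : M.act q = Act.read v nxt) (r : Run M w (nxt (w v)) σ L b) : Run M w q σ (v :: L) b
  | jump {q : M.State} {σ : List M.Sym} {q' : M.State} {L : List V} {b : Bool}
      (h : M.act q = Act.jump q') (r : Run M w q' σ L b) : Run M w q σ L b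
  | push {q : M.State} {σ : List M.Sym} {a : M.Sym} {q' : M.State} {L : List V} {b : Bool}
      (h : M.act q = Act.push a q') (r : Run M w q' (a :: σ) L b) : Run M w q σ L b
  | pop {q : M.State} {a : M.Sym} {σ : List M.Sym} {nxt : M.Sym → M.State} {L : List V} {b : Bool}
      (h : M.act q = Act.pop nxt) (r : Run M w (nxt a) σ L b) : Run M w q (a :: σ) L b

/-- On the input `w` the machine, started with the empty stack, reads the bits of the list `L`, in
this order, and then halts with the output `b`. -/
def Mach.Comp (M : Mach V) (w : V → Bool) (L : List V) (b : Bool) : Prop :=
  M.Run w M.start [] L b

/-- A node of a circuit with the inputs `V`: an input, a constant, a NOT gate, or a two-input AND or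
OR gate. The numbers are the numbers (counted from zero) of nodes of the circuit. -/
inductive Gate (V : Type) : Type where
  | input (v : V)
  | const (b : Bool)
  | not (a : ℕ)
  | and (a b : ℕ)
  | or (a b : ℕ)

/-- A Boolean circuit: the list of its nodes, in an order in which every gate comes after the nodes
it reads, and the number of the output node. -/
structure Circuit (V : Type) : Type where
  /-- the nodes -/
  nodes : List (Gate V)
  /-- the number of the output node -/
  out : ℕ

/-- The value of the node number `i` of the list `l` on the input `w` (a reference to a node that is
not earlier, and a missing node, have the value `false`). -/
def value (l : List (Gate V)) (w : V → Bool) (i : ℕ) : Bool :=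
  match l[i]? with
  | none => false
  | some (Gate.input v) => w v
  | some (Gate.const b) => b
  | some (Gate.not a) => !(if a < i then value l w a else false)
  | some (Gate.and a b) =>
    (if a < i then value l w a else false) && (if b < i then value l w b else false)
  | some (Gate.or a b) =>
    (if a < i then value l w a else false) || (if b < i then value l w b else false)
termination_by i

/-- The input bits that are read when the node number `i` is evaluated recursively: for a gate, its
first argument is evaluated first; the second argument is evaluated only if the value of the first
one does not decide. Nothing is stored, so every node may be evaluated many times. -/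
def reads (l : List (Gate V)) (w : V → Bool) (i : ℕ) : List V :=
  match l[i]? with
  | none => []
  | some (Gate.input v) => [v]
  | some (Gate.const _) => []
  | some (Gate.not a) => if a < i then reads l w a else []
  | some (Gate.and a b) =>
    (if a < i then reads l w a else []) ++
      if (if a < i then value l w a else false) then (if b < i then reads l w b else []) else []
  | some (Gate.or a b) =>
    (if a < i then reads l w a else []) ++
      if (if a < i then value l w a else false) then [] else (if b < i then reads l w b else [])
termination_by i

/-- The value of the output node. -/
def Circuit.eval (C : Circuit V) (w : V → Bool) : Bool := value C.nodes w C.out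

/-- The input bits read by the recursive evaluation of the circuit. -/
def Circuit.reads (C : Circuit V) (w : V → Bool) : List V := ST.reads C.nodes w C.out

end Pool.Agent.V8H39.ST
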