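import Mathlib
import Pool.Agent.W896.MO.Pieces
import Pool.Agent.H554R2.Lin.Defs

/-!
# The blocks of a deterministic computation with a stack

A computation with a stack is cut into few parts with few reads, each of them a derivation with at
most four holes; the parts are described by their entries and exits and by the positions of the
holes. This gives the structure `Blk` for which large rectangles are found in the seed files.
-/

set_option autoImplicit false

open Finset

namespace Pool.Agent.V8H39.ST

open Pool.Agent.W896.MO (QP QAct Ret Der Free Stop wt wt_append nn nn_wt card_nn dec exists_dec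
  len_le_wt)
open Pool.Agent.H554R2.Sem (Pt)
open Pool.Agent.H554R2.Lin (Blk)

variable {ι α : Type}

/-- A part of a computation: entry, exit, length, holes. -/
structure Pc (S : Type) : Type where
  /-- entry -/
  q : S
  /-- exit -/
  p : S
  /-- number of the reads and holes -/
  e : ℕ
  /-- the holes -/
  H : ℕ → Option (S × S)

/-- On the input `x` the part is a part of a computation, with the reads and holes `l`. -/
def Pc.On (P : QP ι α) (x : ι → α) (d : Pc P.State) (l : List (Option ι)) : Prop :=
  Der P d.H x d.q 0 l d.p d.e

/-- The holes of every part in the list are filled by earlier parts or by members of `A`, and `u` is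
available in the end. -/
def Chain {S : Type} : (S × S → Prop) → List (Pc S) → S × S → Prop
  | A, [], u => A u
  | A, d :: L, u => (∀ c v, d.H c = some v → A v) ∧ Chain (fun v => A v ∨ v = (d.q, d.p)) L u

theorem Chain.mono {S : Type} {L : List (Pc S)} {u : S × S} : ∀ {A B : S × S → Prop},
    (∀ v, A v → B v) → Chain A L u → Chain B L u := by
  induction L with
  | nil => intro A B h h2; exact h _ h2
  | cons d L ih =>
    intro A B h h2
    refine ⟨fun c v hv => h _ (h2.1 c v hv), ih (fun v hv => ?_) h2.2⟩
    rcases hv with hv | hv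
    · exact Or.inl (h _ hv)
    · exact Or.inr hv

/-- Filling all holes. -/
theorem fill {P : QP ι α} {H : ℕ → Option (P.State × P.State)} {z : ι → α} {q p : P.State}
    {c c' : ℕ} {l : List (Option ι)} (h : Der P H z q c l p c') :
    (∀ c v, H c = some v → ∃ l, Ret P z v.1 l v.2) → ∃ l', Ret P z q l' p := by
  induction h with
  | hole h => intro hH; exact hH _ _ h
  | stop _ h => intro _; exact ⟨[], Ret.stop h⟩
  | query _ h _ ih =>
    intro hH
    obtain ⟨l, hl⟩ := ih hH
    exact ⟨_, Ret.query h hl⟩
  | cont _ h _ h₁ _ ih1 ih2 =>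
    intro hH
    obtain ⟨l, hl⟩ := ih1 hH
    obtain ⟨l', hl'⟩ := ih2 hH
    exact ⟨_, Ret.cont h hl h₁ hl'⟩
  | halt _ h _ h₁ ih =>
    intro hH
    obtain ⟨l, hl⟩ := ih hH
    exact ⟨_, Ret.halt h hl h₁⟩

/-- Gluing. -/
theorem Chain.glue {P : QP ι α} {z : ι → α} {L : List (Pc P.State)} {u : P.State × P.State} :
    ∀ {A : P.State × P.State → Prop}, Chain A L u → (∀ d ∈ L, ∃ l, d.On P z l) →
      (∀ v, A v → ∃ l, Ret P z v.1 l v.2) → ∃ l, Ret P z u.1 l u.2 := by
  induction L with
  | nil => intro A h _ hA; exact hA _ h
  | cons d L ih =>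
    intro A h hd hA
    refine ih h.2 (fun d' hd' => hd d' (List.mem_cons_of_mem _ hd')) ?_
    rintro v (hv | rfl)
    · exact hA v hv
    · obtain ⟨l, hl⟩ := hd d (List.mem_cons_self ..)
      exact fill hl (fun c v hv => hA v (h.1 c v hv))

/-- Cutting a computation. -/
theorem exists_chain {P : QP ι α} {x : ι → α} {a : ℕ} (ha : 1 ≤ a) :
    ∀ (W : ℕ) (H : ℕ → Option (P.State × P.State)) (q p : P.State) (l : List (Option ι)) (e : ℕ),
      wt a l ≤ W → Der P H x q 0 l p e → (∀ c, H c ≠ none → l[c]? = some none) →
      ∃ L : List (Pc P.State), Chain (fun v => ∃ c, H c = some v) L (q, p) ∧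
        (∀ d ∈ L, ∃ l', d.On P x l' ∧ wt a l' ≤ 4 * a ∧
          ∀ c, d.H c ≠ none → l'[c]? = some none) ∧
        L.length * a ≤ wt a l + a := by
  intro W
  induction W using Nat.strong_induction_on with
  | _ W ih =>
    intro H q p l e hW hd hH
    rcases Nat.lt_or_ge (4 * a) (wt a l) with hbig | hsmall
    · obtain ⟨q₀, p₀, la, l₀, lb, h3, h4, h5, h6, h7, h8⟩ :=
        Der.cut (t := 2 * a) ha (by omega) hd (by omega)
      have hl0 : 1 ≤ l₀.length := List.length_pos_iff.2 h4
      rw [Nat.zero_add] at h5
      simp only [Nat.zero_add] at h8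
      obtain ⟨H', hH'⟩ : ∃ H' : ℕ → Option (P.State × P.State), H' = fun c =>
        if c < la.length then H c else if c = la.length then some (q₀, p₀) else
          H (c + (l₀.length - 1)) := ⟨_, rfl⟩
      obtain ⟨c'', h9⟩ := h8 H' (by
        intro j hj
        rw [hH']; simp only [if_pos hj]) (by
        rw [hH']; simp only [lt_irrefl, if_false, if_true]) (by
        intro j hj
        have a1 : ¬ j < la.length := by omega
        have a2 : ¬ j = la.length := by omega
        rw [hH']; simp only [if_neg a1, if_neg a2])
      have hwt : wt a l = wt a la + wt a l₀ + wt a lb := by rw [h3, wt_append, wt_append]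
      have hwt' : wt a (la ++ none :: lb) = wt a la + (a + wt a lb) := by
        rw [wt_append]; rfl
      obtain ⟨L, b1, b2, b3⟩ := ih (wt a (la ++ none :: lb)) (by omega) H' q p
        (la ++ none :: lb) c'' le_rfl h9 (by
          intro c hc
          rw [hH'] at hc
          simp only at hc
          split_ifs at hc with c1 c2
          · have := hH c hc
            rw [h3, List.append_assoc, List.getElem?_append_left c1] at this
            rw [List.getElem?_append_left c1]
            exact this
          · rw [c2, List.getElem?_append_right le_rfl, Nat.sub_self]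
            rfl
          · have := hH _ hc
            rw [h3, List.getElem?_append_right (by simp only [List.length_append]; omega)] at this
            rw [List.getElem?_append_right (by omega)]
            obtain ⟨k, hk⟩ : ∃ k, c - la.length = k + 1 := ⟨c - la.length - 1, by omega⟩
            rw [hk, List.getElem?_cons_succ]
            have e : c + (l₀.length - 1) - (la ++ l₀).length = k := by
              simp only [List.length_append]; omega
            rw [e] at this
            exact this)
      obtain ⟨H₀, hH₀⟩ : ∃ H₀ : ℕ → Option (P.State × P.State), H₀ = fun j =>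
        if j < l₀.length then H (la.length + j) else none := ⟨_, rfl⟩
      obtain ⟨c', h10⟩ := Der.inner (c₀ := la.length) (e := l₀.length) (H' := H₀) (by
        intro j hj
        rw [hH₀]; simp only [if_pos hj]) (by
        rw [hH₀]; simp only [lt_irrefl, if_false]) h5 0 rfl le_rfl
      refine ⟨⟨q₀, p₀, c', H₀⟩ :: L, ⟨?_, ?_⟩, ?_, ?_⟩
      · intro c v hv
        simp only [hH₀] at hv
        split_ifs at hv with c1
        exact ⟨_, hv⟩
      · refine b1.mono ?_
        rintro v ⟨c, hc⟩
        rw [hH'] at hc
        simp only at hc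
        split_ifs at hc with c1 c2
        · exact Or.inl ⟨_, hc⟩
        · right
          simpa using hc.symm
        · exact Or.inl ⟨_, hc⟩
      · intro d hd'
        rcases List.mem_cons.1 hd' with rfl | hd'
        · refine ⟨l₀, h10, by omega, ?_⟩
          intro c hc
          simp only [hH₀] at hc
          split_ifs at hc with c1
          · have := hH _ hc
            rw [h3, List.append_assoc, List.getElem?_append_right (by omega),
              List.getElem?_append_left (by omega)] at this
            have e : la.length + c - la.length = c := by omega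
            rw [e] at this
            exact this
          · exact absurd rfl hc
        · exact b2 d hd'
      · rw [List.length_cons]
        have : (L.length + 1) * a = L.length * a + a := by ring
        omega
    · refine ⟨[⟨q, p, e, H⟩], ⟨fun c v hv => ⟨c, hv⟩, Or.inr rfl⟩, ?_, ?_⟩
      · intro d hd'
        rw [List.mem_singleton] at hd'
        subst hd'
        exact ⟨l, hd, hsmall, hH⟩
      · simp only [List.length_singleton]
        omega

/-- Descriptions of parts. -/
abbrev Code (S : Type) (T : ℕ) : Type := S × S × Fin (T + 1) × (Fin 4 → Option (Fin T × S × S))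

/-- The described part. -/
noncomputable def Code.pc {S : Type} {T : ℕ} (d : Code S T) : Pc S :=
  ⟨d.1, d.2.1, d.2.2.1, dec d.2.2.2⟩

theorem card_code {S : Type} [Fintype S] (T : ℕ) : Fintype.card (Option (Code S T)) =
    Fintype.card S ^ 2 * (T + 1) * (T * Fintype.card S ^ 2 + 1) ^ 4 + 1 := by
  rw [Fintype.card_option]
  simp only [Fintype.card_prod, Fintype.card_fun, Fintype.card_option, Fintype.card_fin]
  ring

/-- Every short part has a description. -/
theorem exists_code {P : QP ι α} {x : ι → α} {a : ℕ} (ha : 1 ≤ a) (d : Pc P.State)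
    {l : List (Option ι)} (h : d.On P x l) (hw : wt a l ≤ 4 * a)
    (hH : ∀ c, d.H c ≠ none → l[c]? = some none) : ∃ u : Code P.State (4 * a), u.pc = d := by
  classical
  obtain ⟨q, p, e, H⟩ := d
  have hlen : l.length ≤ 4 * a := (len_le_wt ha l).trans hw
  have he : e = l.length := by
    have := h.len
    simpa using this
  have hnn : nn l ≤ 4 := by
    have h1 := (nn_wt a l).trans hw
    exact Nat.le_of_mul_le_mul_right h1 (by omega)
  have hlt : ∀ c, H c ≠ none → c < l.length := by
    intro c hc
    have := hH c hc
    by_contra h2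
    push Not at h2
    rw [List.getElem?_eq_none h2] at this
    exact absurd this (by simp)
  obtain ⟨u, hu⟩ := exists_dec (T := 4 * a) H (fun c hc => (hlt c hc).trans_le hlen) (by
    refine le_trans (card_le_card ?_) ((card_nn l).le.trans hnn)
    intro c hc
    rw [mem_filter] at hc
    rw [mem_filter, mem_range]
    exact ⟨hlt c hc.2, hH c hc.2⟩)
  refine ⟨(q, p, ⟨e, by omega⟩, u), ?_⟩
  simp only [Code.pc, hu]

theorem exists_codes {P : QP ι α} {x : ι → α} {a : ℕ} (ha : 1 ≤ a) :
    ∀ (L : List (Pc P.State)) (A : P.State × P.State → Prop) (u : P.State × P.State),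
      Chain A L u → (∀ d ∈ L, ∃ l', d.On P x l' ∧ wt a l' ≤ 4 * a ∧
          ∀ c, d.H c ≠ none → l'[c]? = some none) →
      ∃ L' : List (Code P.State (4 * a)), L'.map Code.pc = L := by
  intro L
  induction L with
  | nil => intro A u _ _; exact ⟨[], rfl⟩
  | cons d L ih =>
    intro A u hc hd
    obtain ⟨L', hL'⟩ := ih _ u hc.2 (fun d' hd' => hd d' (List.mem_cons_of_mem _ hd'))
    obtain ⟨l, h1, h2, h3⟩ := hd d (List.mem_cons_self ..)
    obtain ⟨v, hv⟩ := exists_code ha d h1 h2 h3
    exact ⟨v :: L', by rw [List.map_cons, hv, hL']⟩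

/-- The list of descriptions for one input. -/
theorem one_code {P : QP ι α} {x : ι → α} {a r : ℕ} (ha : 1 ≤ a) {q t : P.State} {l : List ι}
    (h : Ret P x q l t) (hl : l.length < r * a) :
    ∃ L : List (Code P.State (4 * a)), L.length ≤ r ∧
      Chain (fun _ => False) (L.map Code.pc) (q, t) ∧ ∀ d ∈ L, ∃ l', d.pc.On P x l' := by
  obtain ⟨c', hc'⟩ := h.toDer 0
  obtain ⟨L, h1, h2, h3⟩ := exists_chain ha (wt a (l.map some)) _ q t (l.map some) c' le_rfl hc'
    (fun c hc => absurd rfl hc)
  have hwt : wt a (l.map some) = l.length := by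
    clear h hl hc' h3
    induction l with
    | nil => rfl
    | cons i l ih => simp only [List.map_cons, wt, List.length_cons, ih]; omega
  rw [hwt] at h3
  obtain ⟨L', hL'⟩ := exists_codes ha L _ _ h1 h2
  refine ⟨L', ?_, ?_, ?_⟩
  · have e : L'.length = L.length := by rw [← hL', List.length_map]
    rw [e]
    by_contra h4
    push Not at h4
    have h5 : (r + 1) * a ≤ L.length * a := Nat.mul_le_mul_right _ h4
    have h6 : (r + 1) * a = r * a + a := by ring
    omega
  · rw [hL']
    refine h1.mono ?_
    rintro v ⟨c, hc⟩
    simp at hc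
  · intro d hd
    obtain ⟨l', h5, -⟩ := h2 d.pc (by rw [← hL']; exact List.mem_map_of_mem hd)
    exact ⟨l', h5⟩

section

variable {n : ℕ}

open Classical in
/-- The variables read in a part. -/
noncomputable def rd (P : QP (Fin n) Bool) (x : Pt n) (d : Pc P.State) : Finset (Fin n) :=
  if h : ∃ l, d.On P x l then (univ.filter (fun i => some i ∈ h.choose)) else ∅

theorem rd_eq {P : QP (Fin n) Bool} {x : Pt n} {d : Pc P.State} {l : List (Option (Fin n))}
    (h : d.On P x l) : rd P x d = univ.filter (fun i => some i ∈ l) := by
  classical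
  have h1 : ∃ l, d.On P x l := ⟨l, h⟩
  unfold rd
  rw [dif_pos h1]
  have h2 : h1.choose = l := (Der.unique h1.choose_spec h).1
  rw [h2]

/-- The blocks given by a table of descriptions. -/
noncomputable def mkBlk (P : QP (Fin n) Bool) {r s : ℕ} (κ : Fin r → Option (Code P.State s)) :
    Blk n r s := by
  classical
  exact {
    K := univ.filter (fun x : Pt n => ∀ j d, κ j = some d → ∃ l, d.pc.On P x l)
    Rd := fun j x => match κ j with
      | none => ∅
      | some d => rd P x d.pc
    size := by
      intro x hx j
      rw [mem_filter] at hx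
      cases h : κ j with
      | none => simp
      | some d =>
        obtain ⟨l, hl⟩ := hx.2 j d h
        simp only
        rw [rd_eq hl]
        have h1 : (univ.filter (fun i : Fin n => some i ∈ l)).card ≤ l.length := by
          calc (univ.filter (fun i : Fin n => some i ∈ l)).card
              = ((univ.filter (fun i : Fin n => some i ∈ l)).map ⟨some, Option.some_injective _⟩).card :=
                (card_map _).symm
            _ ≤ l.toFinset.card := by
                refine card_le_card ?_
                intro o ho
                rw [mem_map] at ho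
                obtain ⟨i, hi, rfl⟩ := ho
                rw [mem_filter] at hi
                simpa using hi.2
            _ ≤ l.length := List.toFinset_card_le l
        have h2 : (d.2.2.1 : ℕ) = l.length := by
          have := hl.len
          simpa [Code.pc] using this
        have h3 := d.2.2.1.isLt
        omega
    det := by
      intro x hx y hy j hxy
      rw [mem_filter] at hx hy
      cases h : κ j with
      | none => simp
      | some d =>
        rw [h] at hxy
        simp only at hxy ⊢
        obtain ⟨l, hl⟩ := hx.2 j d h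
        obtain ⟨l', hl'⟩ := hy.2 j d h
        rw [rd_eq hl, rd_eq hl'] at hxy ⊢
        have h1 := (Der.agree hl hl' (fun i hi hi' => hxy i (by simpa using hi)
          (by simpa using hi'))).1
        rw [h1]
    splice := by
      intro X hX z hz
      have key : ∀ j d, κ j = some d → ∃ l, d.pc.On P z l ∧ rd P z d.pc = rd P (X j) d.pc := by
        intro j d h
        have hx := hX j
        rw [mem_filter] at hx
        obtain ⟨l, hl⟩ := hx.2 j d h
        have h1 := hz j
        rw [h] at h1
        simp only at h1
        rw [rd_eq hl] at h1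
        have h2 : d.pc.On P z l := Der.transfer hl (fun i hi => h1 i (by simpa using hi))
        exact ⟨l, h2, by rw [rd_eq h2, rd_eq hl]⟩
      refine ⟨?_, ?_⟩
      · rw [mem_filter]
        refine ⟨mem_univ _, fun j d h => ?_⟩
        obtain ⟨l, hl, -⟩ := key j d h
        exact ⟨l, hl⟩
      · intro j
        cases h : κ j with
        | none => rfl
        | some d =>
          obtain ⟨l, -, hl⟩ := key j d h
          exact hl }

theorem mem_mkBlk {P : QP (Fin n) Bool} {r s : ℕ} {κ : Fin r → Option (Code P.State s)}
    {x : Pt n} : x ∈ (mkBlk P κ).K ↔ ∀ j d, κ j = some d → ∃ l, d.pc.On P x l := by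
  unfold mkBlk
  simp only [mem_filter, mem_univ, true_and]

theorem pigeon {X T : Type} [Fintype T] [DecidableEq T] [Nonempty T] (G : Finset X) (f : X → T) :
    ∃ κ : T, G.card ≤ Fintype.card T * (G.filter (fun x => f x = κ)).card := by
  obtain ⟨κ, -, hκ⟩ := exists_max_image (univ : Finset T)
    (fun κ => (G.filter fun x => f x = κ).card) univ_nonempty
  have h2 : G.card = ∑ κ' : T, (G.filter fun x => f x = κ').card :=
    card_eq_sum_card_fiberwise fun x _ => mem_univ _
  refine ⟨κ, ?_⟩
  rw [h2]
  refine (sum_le_card_nsmul _ _ _ hκ).trans (le_of_eq ?_)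
  rw [card_univ, smul_eq_mul]

/-- The blocks of a deterministic computation with a stack. -/
theorem blocksS (P : QP (Fin n) Bool) [Fintype P.State] (start : P.State) (r a : ℕ) (hr : 1 ≤ r)
    (ha : 1 ≤ a)
    (G : Finset (Pt n)) (hG : ∀ x ∈ G, ∃ l t, Ret P x start l t ∧ P.act t = QAct.halt ∧
      l.length < r * a) :
    ∃ B : Blk n r (4 * a), G.card ≤
        (Fintype.card P.State ^ 2 * (4 * a + 1) * (4 * a * Fintype.card P.State ^ 2 + 1) ^ 4 + 1) ^ r
          * B.K.card ∧
      ∀ x ∈ B.K, ∃ l t, Ret P x start l t ∧ P.act t = QAct.halt := by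
  classical
  rcases G.eq_empty_or_nonempty with h0 | h0
  · subst h0
    refine ⟨{
      K := ∅
      Rd := fun _ _ => ∅
      size := by simp
      det := by simp
      splice := fun X hX => absurd (hX ⟨0, hr⟩) (notMem_empty _) }, by simp, by simp⟩
  · have h1 : ∀ x ∈ G, ∃ (L : List (Code P.State (4 * a))) (t : P.State), L.length ≤ r ∧
        Chain (fun _ => False) (L.map Code.pc) (start, t) ∧ P.act t = QAct.halt ∧
        ∀ d ∈ L, ∃ l', d.pc.On P x l' := by
      intro x hx
      obtain ⟨l, t, h1, h2, h3⟩ := hG x hx
      obtain ⟨L, h4, h5, h6⟩ := one_code ha h1 h3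
      exact ⟨L, t, h4, h5, h2, h6⟩
    choose! L t hL1 hL2 hL3 hL4 using h1
    obtain ⟨cls, hcls⟩ : ∃ cls : Pt n → (Fin r → Option (Code P.State (4 * a))),
        ∀ x, cls x = fun j : Fin r => (L x)[j.val]? := ⟨_, fun _ => rfl⟩
    obtain ⟨κ, hκ⟩ := pigeon G cls
    have hcard : Fintype.card (Fin r → Option (Code P.State (4 * a))) =
        (Fintype.card P.State ^ 2 * (4 * a + 1) * (4 * a * Fintype.card P.State ^ 2 + 1) ^ 4 + 1)
          ^ r := by
      rw [Fintype.card_fun, Fintype.card_fin, card_code]
    rw [hcard] at hκ
    have hne : (G.filter fun x => cls x = κ).Nonempty := by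
      rw [← card_pos]
      by_contra h4
      have h5 : (G.filter fun x => cls x = κ).card = 0 := by omega
      rw [h5, mul_zero] at hκ
      have := card_pos.2 h0
      omega
    obtain ⟨x0, hx0⟩ := hne
    obtain ⟨hx0G, hx0c⟩ := mem_filter.1 hx0
    refine ⟨mkBlk P κ, hκ.trans (Nat.mul_le_mul_left _ (card_le_card ?_)), ?_⟩
    · intro x hx
      obtain ⟨hxG, hxc⟩ := mem_filter.1 hx
      rw [mem_mkBlk]
      intro j d hd
      rw [← hxc, hcls] at hd
      exact hL4 x hxG d (List.mem_of_getElem? hd)
    · intro z hz
      rw [mem_mkBlk] at hz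
      obtain ⟨l, hl⟩ := Chain.glue (z := z) (hL2 x0 hx0G) (by
        intro d hd
        rw [List.mem_map] at hd
        obtain ⟨d', hd', rfl⟩ := hd
        obtain ⟨i, hi, hid⟩ := List.mem_iff_getElem.1 hd'
        refine hz ⟨i, hi.trans_le (hL1 x0 hx0G)⟩ d' ?_
        rw [← hx0c, hcls]
        simp only
        rw [List.getElem?_eq_getElem hi, hid]) (fun v hv => hv.elim)
      exact ⟨l, t x0 hx0G, hl, hL3 x0 hx0G⟩

end

end Pool.Agent.V8H39.ST
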