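import Mathlib
import Pool.Agent.V8H39.ST.Cut
import Pool.Agent.H554R2.Lin.CnfFinal

/-!
# CNF formulas are hard for deterministic machines with a stack and few reads
-/

set_option autoImplicit false

open Finset

namespace Pool.Agent.V8H39.ST

open Pool.Agent.W896.MO (QP QAct Ret)
open Pool.Agent.H554R2.Sem Pool.Agent.H554R2.Cnf Pool.Agent.H554R2.Lin

/-- Polynomials are small. -/
theorem poly_small (c E : ℕ) (hE : 0 < E) : ∃ D2 : ℕ, ∀ n ≥ D2,
    2 * (c * n) ^ 5 ≤ 2 ^ (n / E) := by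
  have ht := tendsto_pow_const_div_const_pow_of_one_lt 5 (show (1 : ℝ) < 2 by norm_num)
  obtain ⟨K, hK⟩ : ∃ K : ℕ, K = 4 * (c * E) ^ 5 + 1 := ⟨_, rfl⟩
  have ht2 : Filter.Tendsto (fun m : ℕ => (K : ℝ) * ((m : ℝ) ^ 5 / 2 ^ m)) Filter.atTop
      (nhds 0) := by
    simpa using ht.const_mul (K : ℝ)
  obtain ⟨N0, hN0⟩ := Filter.eventually_atTop.1 (ht2.eventually (gt_mem_nhds
    (show (0 : ℝ) < 1 by norm_num)))
  refine ⟨E * N0, fun n hn => ?_⟩
  obtain ⟨m, hm⟩ : ∃ m, m = n / E := ⟨_, rfl⟩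
  rw [← hm]
  have hm0 : N0 ≤ m := by
    rw [hm, Nat.le_div_iff_mul_le hE, mul_comm]; exact hn
  have hnm : n ≤ E * (m + 1) := by rw [hm]; exact (Nat.lt_mul_div_succ n hE).le
  have h1 := hN0 (m + 1) (by omega)
  have h2 : (K : ℝ) * ((m + 1 : ℕ) : ℝ) ^ 5 < 2 ^ (m + 1) := by
    have h3 : (0 : ℝ) < 2 ^ (m + 1) := by positivity
    rw [← mul_div_assoc, div_lt_one h3] at h1
    exact h1
  have h3 : K * (m + 1) ^ 5 < 2 ^ (m + 1) := by exact_mod_cast h2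
  have h4 : 2 * (c * n) ^ 5 ≤ 2 * (c * (E * (m + 1))) ^ 5 :=
    Nat.mul_le_mul_left _ (Nat.pow_le_pow_left (Nat.mul_le_mul_left _ hnm) 5)
  have h5 : 2 * (2 * (c * (E * (m + 1))) ^ 5) ≤ K * (m + 1) ^ 5 := by
    rw [hK]
    calc 2 * (2 * (c * (E * (m + 1))) ^ 5) = 4 * (c * E) ^ 5 * (m + 1) ^ 5 := by ring
      _ ≤ (4 * (c * E) ^ 5 + 1) * (m + 1) ^ 5 := Nat.mul_le_mul_right _ (Nat.le_succ _)
  have h6 : 2 ^ (m + 1) = 2 * 2 ^ m := by rw [pow_succ]; ring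
  omega

theorem nst_le (S a q w : ℕ) (hS1 : 1 ≤ S) (hS : S ≤ 2 ^ q) (hw : 2 * (4 * a + 1) ^ 5 ≤ 2 ^ w) :
    S ^ 2 * (4 * a + 1) * (4 * a * S ^ 2 + 1) ^ 4 + 1 ≤ 2 ^ (10 * q + w) := by
  have h0 : 1 ≤ S ^ 2 := Nat.one_le_pow _ _ hS1
  have h1 : 4 * a * S ^ 2 + 1 ≤ (4 * a + 1) * S ^ 2 := by nlinarith
  have h2 : S ^ 2 * (4 * a + 1) * (4 * a * S ^ 2 + 1) ^ 4 ≤ S ^ 10 * (4 * a + 1) ^ 5 := by
    calc S ^ 2 * (4 * a + 1) * (4 * a * S ^ 2 + 1) ^ 4
        ≤ S ^ 2 * (4 * a + 1) * ((4 * a + 1) * S ^ 2) ^ 4 :=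
          Nat.mul_le_mul_left _ (Nat.pow_le_pow_left h1 4)
      _ = S ^ 10 * (4 * a + 1) ^ 5 := by ring
  have h3 : 1 ≤ S ^ 10 * (4 * a + 1) ^ 5 :=
    Nat.mul_pos (Nat.pow_pos (by omega)) (Nat.pow_pos (by omega))
  have h4 : S ^ 10 ≤ (2 ^ q) ^ 10 := Nat.pow_le_pow_left hS 10
  calc S ^ 2 * (4 * a + 1) * (4 * a * S ^ 2 + 1) ^ 4 + 1
      ≤ S ^ 10 * (4 * a + 1) ^ 5 + S ^ 10 * (4 * a + 1) ^ 5 := Nat.add_le_add h2 h3
    _ = S ^ 10 * (2 * (4 * a + 1) ^ 5) := by ring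
    _ ≤ (2 ^ q) ^ 10 * 2 ^ w := Nat.mul_le_mul h4 hw
    _ = 2 ^ (10 * q + w) := by rw [← pow_mul, ← pow_add, mul_comm q 10]

theorem final_cnfS (k : ℕ) : ∃ D : ℕ, 0 < D ∧ ∀ n ≥ D,
    ∃ F : Finset (Finset (Fin n × Bool)), F.card ≤ D * n ∧ (∀ c ∈ F, c.card ≤ D) ∧
      ∀ (P : QP (Fin n) Bool) [Fintype P.State] (start : P.State),
        Fintype.card P.State < 2 ^ (n / D) →
        (∀ x l t, Ret P x start l t → P.act t = QAct.halt → Models F x) →
        2 ^ (n / D) * Nat.card {x // ∃ l t, Ret P x start l t ∧ P.act t = QAct.halt ∧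
            l.length ≤ k * n} <
          Nat.card {x : Pt n // Models F x} := by
  classical
  obtain ⟨Q, r, N, hQ, hr, hN, hmain⟩ := main_rect (4 * k + 4)
  obtain ⟨D1, hD1, hcnf⟩ := exists_cnf Q N hQ hN
  obtain ⟨E', hE'⟩ : ∃ E' : ℕ, E' = 8 * N * r := ⟨_, rfl⟩
  obtain ⟨D2, hD2⟩ := poly_small (4 * k + 5) E' (by rw [hE']; positivity)
  obtain ⟨E, hE⟩ : ∃ E : ℕ, E = 4 * N * (10 * r + 2) := ⟨_, rfl⟩
  obtain ⟨D, hD⟩ : ∃ D : ℕ, D = D1 + D2 + E + 4 * N + 2 * Q + r + 1 := ⟨_, rfl⟩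
  have hD0 : 0 < D := by omega
  refine ⟨D, hD0, ?_⟩
  intro n hn
  obtain ⟨F, hF1, hF2, C, hC, hCc, hCR⟩ := hcnf n (by omega)
  refine ⟨F, hF1.trans (Nat.mul_le_mul_right _ (by omega)), fun c hc => (hF2 c hc).trans (by omega),
    ?_⟩
  intro P _ start hPs hPf
  by_contra hneg
  push Not at hneg
  set G : Finset (Pt n) := univ.filter (fun x => ∃ l t, Ret P x start l t ∧
    P.act t = QAct.halt ∧ l.length ≤ k * n) with hG
  have hGc : Nat.card {x // ∃ l t, Ret P x start l t ∧ P.act t = QAct.halt ∧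
      l.length ≤ k * n} = G.card := by
    rw [Nat.card_eq_fintype_card, Fintype.card_subtype]
  have hZ : Nat.card {x : Pt n // Models F x} = C.card := by
    rw [Nat.card_eq_fintype_card, Fintype.card_subtype]
    congr 1
    ext x
    simp only [Finset.mem_filter, Finset.mem_univ, true_and]
    exact (hC x).symm
  rw [hGc, hZ] at hneg
  -- blocks
  obtain ⟨a, ha⟩ : ∃ a, a = k * n / r + 1 := ⟨_, rfl⟩
  have hs1 : k * n < r * a := by
    rw [ha]; exact Nat.lt_mul_div_succ (k * n) hr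
  have hs2 : r * (4 * a) ≤ (4 * k + 4) * n := by
    have h1 := Nat.mul_div_le (k * n) r
    have h2 : r ≤ n := by omega
    rw [ha]; nlinarith
  obtain ⟨B, hB1, hB2⟩ := blocksS P start r a hr (by rw [ha]; exact Nat.succ_pos _) G (by
    intro x hx
    obtain ⟨l, t, hl, ht, hl2⟩ := (Finset.mem_filter.1 hx).2
    exact ⟨l, t, hl, ht, hl2.trans_lt hs1⟩)
  -- the number of the descriptions
  set q := n / D with hq
  have hnD : 1 ≤ q := (Nat.one_le_div_iff hD0).2 hn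
  have hS1 : 1 ≤ Fintype.card P.State := Fintype.card_pos_iff.2 ⟨start⟩
  have ha4 : 4 * a + 1 ≤ (4 * k + 5) * n := by
    have h1 : k * n / r ≤ k * n := Nat.div_le_self _ _
    have h2 : 5 ≤ n := by
      have : 8 ≤ E := by rw [hE]; nlinarith
      omega
    rw [ha]; nlinarith
  have hNst : Fintype.card P.State ^ 2 * (4 * a + 1) *
      (4 * a * Fintype.card P.State ^ 2 + 1) ^ 4 + 1 ≤ 2 ^ (10 * q + n / E') :=
    nst_le _ _ _ _ hS1 hPs.le ((Nat.mul_le_mul_left 2 (Nat.pow_le_pow_left ha4 5)).trans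
      (hD2 n (by omega)))
  -- the size
  have hexp : (8 * (n / (32 * N)) + 1) + (q + (10 * q + n / E') * r) ≤ n / N := by
    rw [Nat.le_div_iff_mul_le hN]
    have h1 : 32 * N * (n / (32 * N)) ≤ n := Nat.mul_div_le n (32 * N)
    have h2 : D * q ≤ n := Nat.mul_div_le n D
    have h3 : E * q ≤ D * q := Nat.mul_le_mul_right _ (by omega)
    have h6 : E' * (n / E') ≤ n := Nat.mul_div_le n E'
    have h5 : N * 1 ≤ N * q := Nat.mul_le_mul_left _ hnD
    have e1 : 4 * (((8 * (n / (32 * N)) + 1) + (q + (10 * q + n / E') * r)) * N) =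
        32 * N * (n / (32 * N)) + 4 * (N * 1) + 4 * N * (10 * r + 1) * q +
          4 * (N * r * (n / E')) := by ring
    have e2 : E * q = 4 * (N * q) + 4 * N * (10 * r + 1) * q := by rw [hE]; ring
    have e3 : E' * (n / E') = 8 * (N * r * (n / E')) := by rw [hE']; ring
    omega
  have hKbig : 2 ^ n ≤ 2 ^ (n / N) * B.K.card := by
    calc 2 ^ n ≤ 2 ^ (8 * (n / (32 * N)) + 1) * C.card := hCc
      _ ≤ 2 ^ (8 * (n / (32 * N)) + 1) * (2 ^ q * G.card) := Nat.mul_le_mul_left _ hneg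
      _ ≤ 2 ^ (8 * (n / (32 * N)) + 1) *
          (2 ^ q * ((2 ^ (10 * q + n / E')) ^ r * B.K.card)) := by
          apply Nat.mul_le_mul_left
          apply Nat.mul_le_mul_left
          refine hB1.trans (Nat.mul_le_mul_right _ ?_)
          exact Nat.pow_le_pow_left hNst _
      _ = 2 ^ ((8 * (n / (32 * N)) + 1) + (q + (10 * q + n / E') * r)) * B.K.card := by
          rw [← pow_mul, ← mul_assoc, ← mul_assoc, ← pow_add, ← pow_add]
          congr 2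
          ring
      _ ≤ 2 ^ (n / N) * B.K.card :=
          Nat.mul_le_mul_right _ (Nat.pow_le_pow_right (by norm_num) hexp)
  obtain ⟨a', b, g, ha', hb, hga, hgb, ⟨R⟩⟩ := hmain n (by omega) (4 * a) hs2 B hKbig
  have hKC : B.K ⊆ C := by
    intro x hx
    obtain ⟨l, t, hl, ht⟩ := hB2 x hx
    exact (hC x).2 (hPf x l t hl ht)
  have hlog : ∀ e : ℕ, n ≤ Q * e → 100 * g ≤ e → n / (2 * Q) ≤ e - g := by
    intro e h1 h2
    have h3 : n / (2 * Q) ≤ e / 2 := by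
      rw [Nat.div_le_iff_le_mul_add_pred (by omega)]
      have h4 : e < 2 * (e / 2) + 2 := by omega
      have h5 : Q * e ≤ Q * (2 * (e / 2) + 1) := Nat.mul_le_mul_left _ (by omega)
      have h6 : Q * (2 * (e / 2) + 1) = 2 * Q * (e / 2) + Q := by ring
      omega
    omega
  rcases norect_rect C B.K hKC hCR R with h | h
  · have h1 : 2 ^ (a' - g) ≤ R.X.card := by
      have h2 := R.nX
      have h3 : 2 ^ g * 2 ^ (a' - g) ≤ 2 ^ g * R.X.card := by
        rw [← pow_add]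
        have : g + (a' - g) = a' := by omega
        rw [this]; exact h2
      exact Nat.le_of_mul_le_mul_left h3 (by positivity)
    have h4 : 2 ^ (n / (2 * Q)) ≤ 2 ^ (a' - g) :=
      Nat.pow_le_pow_right (by norm_num) (hlog a' ha' hga)
    omega
  · have h1 : 2 ^ (b - g) ≤ R.Y.card := by
      have h2 := R.nY
      have h3 : 2 ^ g * 2 ^ (b - g) ≤ 2 ^ g * R.Y.card := by
        rw [← pow_add]
        have : g + (b - g) = b := by omega
        rw [this]; exact h2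
      exact Nat.le_of_mul_le_mul_left h3 (by positivity)
    have h4 : 2 ^ (n / (2 * Q)) ≤ 2 ^ (b - g) := Nat.pow_le_pow_right (by norm_num) (hlog b hb hgb)
    omega

end Pool.Agent.V8H39.ST
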