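import Mathlib
import Pool.Agent.V8H39.ST.Defs
import Pool.Agent.W896.MO.Pieces
import Pool.Agent.H538R4.SP.Fix

/-!
# Machines with a stack, some bits of the input being fixed
-/

set_option autoImplicit false

namespace Pool.Agent.V8H39.ST

open Pool.Agent.H554R2.Sem Pool.Agent.H554R2.Cnf
open Pool.Agent.H538R4.SP (idx idx_apply idx_other)
open Pool.Agent.W896.MO (QP QAct Ret Stop Dec)

section

variable {V : Type} {n : ℕ}

/-- A silent step: a jump, or the reading of a bit outside the range of `p`. -/
def Skip (p : Fin n → V) (b : V → Bool) (M : Mach V) (s t : M.State) : Prop :=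
  M.act s = Act.jump t ∨ ∃ (v : V) (nxt : Bool → M.State), M.act s = Act.read v nxt ∧
    (∀ i, p i ≠ v) ∧ t = nxt (b v)

/-- There is no silent step. -/
def Stopped (p : Fin n → V) (M : Mach V) (s : M.State) : Prop :=
  (∀ t, M.act s ≠ Act.jump t) ∧ ∀ v nxt, M.act s = Act.read v nxt → ∃ i, p i = v

theorem not_skip {p : Fin n → V} {b : V → Bool} {M : Mach V} {s t : M.State}
    (hs : Stopped p M s) : ¬ Skip p b M s t := by
  rintro (h | ⟨v, nxt, h1, h2, -⟩)
  · exact hs.1 t h
  · obtain ⟨i, hi⟩ := hs.2 v nxt h1
    exact h2 i hi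

theorem skip_unique {p : Fin n → V} {b : V → Bool} {M : Mach V} {s t t' : M.State}
    (h : Skip p b M s t) (h' : Skip p b M s t') : t = t' := by
  rcases h with h | ⟨v, nxt, h1, -, h3⟩ <;> rcases h' with h' | ⟨v', nxt', h1', -, h3'⟩
  · rw [h] at h'; simpa using h'
  · rw [h] at h1'; simp at h1'
  · rw [h'] at h1; simp at h1
  · rw [h1] at h1'
    simp only [Act.read.injEq] at h1'
    obtain ⟨rfl, rfl⟩ := h1'
    rw [h3, h3']

open Classical in
/-- The configuration reached by silent steps in which something else is done, if any. -/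
noncomputable def resolve (p : Fin n → V) (b : V → Bool) (M : Mach V) (s : M.State) :
    Option M.State :=
  if h : ∃ t, Relation.ReflTransGen (Skip p b M) s t ∧ Stopped p M t then some h.choose else none

theorem resolve_stopped {p : Fin n → V} {b : V → Bool} {M : Mach V} {s : M.State}
    (hs : Stopped p M s) : resolve p b M s = some s := by
  classical
  unfold resolve
  have h : ∃ t, Relation.ReflTransGen (Skip p b M) s t ∧ Stopped p M t := ⟨s, .refl, hs⟩
  rw [dif_pos h]
  have h1 := h.choose_spec.1
  rcases Relation.ReflTransGen.cases_head h1 with h2 | ⟨c, h2, -⟩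
  · exact congrArg some h2.symm
  · exact absurd h2 (not_skip hs)

theorem resolve_skip {p : Fin n → V} {b : V → Bool} {M : Mach V} {s t : M.State}
    (hst : Skip p b M s t) : resolve p b M s = resolve p b M t := by
  classical
  have h : (fun u => Relation.ReflTransGen (Skip p b M) s u ∧ Stopped p M u) =
      fun u => Relation.ReflTransGen (Skip p b M) t u ∧ Stopped p M u := by
    funext u
    refine propext ⟨fun h => ⟨?_, h.2⟩, fun h => ⟨.head hst h.1, h.2⟩⟩
    rcases Relation.ReflTransGen.cases_head h.1 with h2 | ⟨c, h2, h3⟩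
    · rw [← h2] at h
      exact absurd hst (not_skip h.2)
    · rw [skip_unique hst h2]
      exact h3
  unfold resolve
  simp only [show ∀ u, (Relation.ReflTransGen (Skip p b M) s u ∧ Stopped p M u) =
    (Relation.ReflTransGen (Skip p b M) t u ∧ Stopped p M u) from fun u => congrFun h u]

theorem resolve_spec {p : Fin n → V} {b : V → Bool} {M : Mach V} {s t : M.State}
    (h : resolve p b M s = some t) :
    Relation.ReflTransGen (Skip p b M) s t ∧ Stopped p M t := by
  classical
  unfold resolve at h
  split_ifs at h with h1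
  have h2 : h1.choose = t := Option.some_injective _ h
  rw [← h2]
  exact h1.choose_spec

/-- What is done in the configuration `u`, without silent steps. -/
noncomputable def act1 (p : Fin n → V) (M : Mach V) (u : M.State) :
    QAct (Fin n) Bool M.State (Option M.Sym) :=
  match M.act u with
  | .read v nxt => (match idx p v with
    | some i => .query i nxt
    | none => .push none u)
  | .jump _ => .push none u
  | .push a q => .push (some a) q
  | .pop nxt => .pop (fun o => o.elim u nxt)
  | .halt true => .halt
  | .halt false => .push none u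

/-- The machine in which the bits outside the range of `p` have the values given by `b`; rejecting
and hopeless configurations push the symbol `none` again and again. -/
noncomputable def toQP (p : Fin n → V) (b : V → Bool) (M : Mach V) : QP (Fin n) Bool where
  State := M.State
  Sym := Option M.Sym
  act := fun s => match resolve p b M s with
    | none => .push none s
    | some u => act1 p M u

theorem act_some {p : Fin n → V} {b : V → Bool} {M : Mach V} {s u : M.State}
    (h : resolve p b M s = some u) : (toQP p b M).act s = act1 p M u := by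
  simp only [toQP, h]

theorem act_none {p : Fin n → V} {b : V → Bool} {M : Mach V} {s : M.State}
    (h : resolve p b M s = none) : (toQP p b M).act s = QAct.push none s := by
  simp only [toQP, h]

theorem Ret.dead {ι α : Type} {P : QP ι α} {x : ι → α} {q p : P.State} {l : List ι}
    (h : Ret P x q l p) : ∀ a, P.act q ≠ QAct.push a q := by
  induction h with
  | stop h =>
    intro a h2
    rcases h with ⟨nxt, h⟩ | h <;> rw [h] at h2 <;> simp at h2
  | query h _ _ => intro a h2; rw [h] at h2; simp at h2
  | cont h _ _ _ ih1 _ =>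
    intro a h2
    rw [h] at h2
    simp only [QAct.push.injEq] at h2
    obtain ⟨rfl, rfl⟩ := h2
    exact ih1 _ h
  | halt h _ _ ih =>
    intro a h2
    rw [h] at h2
    simp only [QAct.push.injEq] at h2
    obtain ⟨rfl, rfl⟩ := h2
    exact ih _ h

/-- Silent steps can be put in front. -/
theorem run_skip {p : Fin n → V} {b : V → Bool} {M : Mach V} {x : Pt n} {s t : M.State}
    (h : Relation.ReflTransGen (Skip p b M) s t) {σ : List M.Sym} {L : List V} {c : Bool}
    (hr : M.Run (plug p b x) t σ L c) : ∃ L', M.Run (plug p b x) s σ L' c := by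
  induction h using Relation.ReflTransGen.head_induction_on with
  | refl => exact ⟨L, hr⟩
  | head h1 _ ih =>
    obtain ⟨L', hL'⟩ := ih
    rcases h1 with h1 | ⟨v, nxt, e1, e2, e3⟩
    · exact ⟨L', Mach.Run.jump h1 hL'⟩
    · refine ⟨v :: L', Mach.Run.read e1 ?_⟩
      rw [plug_other p b x v e2, ← e3]
      exact hL'

theorem inv_query {p : Fin n → V} {M : Mach V} {u : M.State} {i : Fin n}
    {nxt : Bool → M.State} (h : act1 p M u = QAct.query i nxt) :
    ∃ v, M.act u = Act.read v nxt ∧ idx p v = some i := by
  unfold act1 at h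
  split at h
  · rename_i v nxt' e
    split at h
    · rename_i j hj
      simp only [QAct.query.injEq] at h
      obtain ⟨rfl, rfl⟩ := h
      exact ⟨v, e, hj⟩
    · simp at h
  all_goals simp at h

theorem inv_halt {p : Fin n → V} {M : Mach V} {u : M.State}
    (h : act1 p M u = QAct.halt) : M.act u = Act.halt true := by
  unfold act1 at h
  split at h
  · split at h <;> simp at h
  · simp at h
  · simp at h
  · simp at h
  · assumption
  · simp at h

theorem inv_push {p : Fin n → V} {M : Mach V} {u : M.State} {a : Option M.Sym} {q : M.State}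
    (h : act1 p M u = QAct.push a q) : (q = u ∧ a = none) ∨
      ∃ a', a = some a' ∧ M.act u = Act.push a' q := by
  unfold act1 at h
  split at h
  · split at h
    · simp at h
    · simp only [QAct.push.injEq] at h
      exact Or.inl ⟨h.2.symm, h.1.symm⟩
  · simp only [QAct.push.injEq] at h
    exact Or.inl ⟨h.2.symm, h.1.symm⟩
  · rename_i a' q' e
    simp only [QAct.push.injEq] at h
    obtain ⟨rfl, rfl⟩ := h
    exact Or.inr ⟨a', rfl, e⟩
  · simp at h
  · simp at h
  · simp only [QAct.push.injEq] at h
    exact Or.inl ⟨h.2.symm, h.1.symm⟩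

theorem inv_pop {p : Fin n → V} {M : Mach V} {u : M.State} {nxt : Option M.Sym → M.State}
    (h : act1 p M u = QAct.pop nxt) : ∃ nxt', M.act u = Act.pop nxt' ∧
      ∀ a, nxt (some a) = nxt' a := by
  unfold act1 at h
  split at h
  · split at h <;> simp at h
  · simp at h
  · simp at h
  · rename_i nxt' e
    simp only [QAct.pop.injEq] at h
    subst h
    exact ⟨nxt', e, fun _ => rfl⟩
  · simp at h
  · simp at h

/-- A push of the program that leads anywhere is a push of the machine. -/
theorem real_push {p : Fin n → V} {b : V → Bool} {M : Mach V} {x : Pt n} {q q' t : M.State}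
    {a : Option M.Sym} {l : List (Fin n)} (h : (toQP p b M).act q = QAct.push a q')
    (r : Ret (toQP p b M) x q' l t) :
    ∃ u a', resolve p b M q = some u ∧ a = some a' ∧ M.act u = Act.push a' q' := by
  cases hr : resolve p b M q with
  | none =>
    have h1 := act_none hr
    have h2 : (QAct.push none q : QAct (Fin n) Bool M.State (Option M.Sym)) = QAct.push a q' :=
      h1.symm.trans h
    simp only [QAct.push.injEq] at h2
    obtain ⟨-, rfl⟩ := h2
    exact absurd h1 (Ret.dead r _)
  | some u =>
    have h1 := act_some hr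
    rcases inv_push (h1.symm.trans h) with ⟨rfl, -⟩ | ⟨a', h2, h3⟩
    · have h4 : resolve p b M q' = some q' := resolve_stopped (resolve_spec hr).2
      have h5 := act_some h4
      exact absurd (h5.trans (h1.symm.trans h)) (Ret.dead r _)
    · exact ⟨u, a', rfl, h2, h3⟩

theorem sound_aux {p : Fin n → V} (hp : Function.Injective p) (b : V → Bool) (M : Mach V)
    (x : Pt n) {q t : (toQP p b M).State} {l : List (Fin n)} (h : Ret (toQP p b M) x q l t) :
    ((toQP p b M).act t = QAct.halt → ∀ σ, ∃ L, M.Run (plug p b x) q σ L true) ∧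
    ((toQP p b M).act t ≠ QAct.halt → ∀ σ L' c, M.Run (plug p b x) t σ L' c →
      ∃ L, M.Run (plug p b x) q σ L c) := by
  induction h with
  | @stop q h =>
    refine ⟨fun hh σ => ?_, fun _ σ L' c hr => ⟨L', hr⟩⟩
    cases hq : resolve p b M q with
    | none =>
      rw [act_none hq] at hh
      simp at hh
    | some u =>
      rw [act_some hq] at hh
      exact run_skip (resolve_spec hq).1 (Mach.Run.halt (inv_halt hh))
  | @query q i nxt l t h r ih =>
    have key : ∀ σ L' c, M.Run (plug p b x) (nxt (x i)) σ L' c →
        ∃ L, M.Run (plug p b x) q σ L c := by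
      intro σ L' c hr
      cases hq : resolve p b M q with
      | none =>
        rw [act_none hq] at h
        simp at h
      | some u =>
        rw [act_some hq] at h
        obtain ⟨v, h1, h2⟩ := inv_query h
        have h3 : p i = v := by
          by_cases hv : ∃ j, p j = v
          · obtain ⟨j, rfl⟩ := hv
            rw [idx_apply p hp] at h2
            rw [Option.some_injective _ h2]
          · push Not at hv
            rw [idx_other p v hv] at h2
            simp at h2
        have h4 : M.Run (plug p b x) (nxt (plug p b x v)) σ L' c := by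
          rw [← h3, plug_apply p hp]
          exact hr
        exact run_skip (resolve_spec hq).1 (Mach.Run.read h1 h4)
    refine ⟨fun hh σ => ?_, fun hh σ L' c hr => ?_⟩
    · obtain ⟨L, hL⟩ := ih.1 hh σ
      exact key σ L true hL
    · obtain ⟨L, hL⟩ := ih.2 hh σ L' c hr
      exact key σ L c hL
  | @cont q a q' l₁ l₂ p₁ t nxt h r₁ h₁ r₂ ih1 ih2 =>
    obtain ⟨u, a', hu, rfl, hact⟩ := real_push h r₁
    have key : ∀ σ L' c, M.Run (plug p b x) (nxt (some a')) σ L' c →
        ∃ L, M.Run (plug p b x) q σ L c := by
      intro σ L' c hr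
      cases hq : resolve p b M p₁ with
      | none =>
        rw [act_none hq] at h₁
        simp at h₁
      | some u₁ =>
        have h₁' := h₁
        rw [act_some hq] at h₁
        obtain ⟨nxt', h2, h3⟩ := inv_pop h₁
        rw [h3] at hr
        obtain ⟨L1, hL1⟩ := run_skip (resolve_spec hq).1
          (Mach.Run.pop (σ := σ) (a := a') h2 hr)
        obtain ⟨L2, hL2⟩ := ih1.2 (by rw [h₁']; simp) (a' :: σ) L1 c hL1
        exact run_skip (resolve_spec hu).1 (Mach.Run.push hact hL2)
    refine ⟨fun hh σ => ?_, fun hh σ L' c hr => ?_⟩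
    · obtain ⟨L, hL⟩ := ih2.1 hh σ
      exact key σ L true hL
    · obtain ⟨L, hL⟩ := ih2.2 hh σ L' c hr
      exact key σ L c hL
  | @halt q a q' l t h r h₁ ih =>
    obtain ⟨u, a', hu, rfl, hact⟩ := real_push h r
    refine ⟨fun hh σ => ?_, fun hh => absurd h₁ hh⟩
    obtain ⟨L, hL⟩ := ih.1 h₁ (a' :: σ)
    exact run_skip (resolve_spec hu).1 (Mach.Run.push hact hL)

theorem toQP_sound {p : Fin n → V} (hp : Function.Injective p) (b : V → Bool) (M : Mach V)
    (x : Pt n) (l : List (Fin n)) (t : M.State) (h : Ret (toQP p b M) x M.start l t)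
    (ht : (toQP p b M).act t = QAct.halt) : ∃ L, M.Comp (plug p b x) L true :=
  (sound_aux hp b M x h).1 ht []

theorem Ret.congr {ι α : Type} {P : QP ι α} {x : ι → α} {s t p : P.State} {l : List ι}
    (h : Ret P x t l p) (hs : P.act s = P.act t) : ∃ p', Ret P x s l p' ∧ P.act p' = P.act p := by
  cases h with
  | stop h =>
    refine ⟨s, Ret.stop ?_, hs⟩
    rcases h with ⟨nxt, h⟩ | h
    · exact Or.inl ⟨nxt, hs.trans h⟩
    · exact Or.inr (hs.trans h)
  | query h r => exact ⟨p, Ret.query (hs.trans h) r, rfl⟩
  | cont h r₁ h₁ r₂ => exact ⟨p, Ret.cont (hs.trans h) r₁ h₁ r₂, rfl⟩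
  | halt h r h₁ => exact ⟨p, Ret.halt (hs.trans h) r h₁, rfl⟩

theorem Dec.congr {ι α : Type} {P : QP ι α} {x : ι → α} {s t : P.State} {l : List ι}
    {σ : List P.Sym} (h : Dec P x σ t l) (hs : P.act s = P.act t) : Dec P x σ s l := by
  cases σ with
  | nil =>
    obtain ⟨p, h1, h2⟩ := h
    obtain ⟨p', h3, h4⟩ := Ret.congr h1 hs
    exact ⟨p', h3, h4.trans h2⟩
  | cons a σ =>
    rcases h with ⟨p, h1, h2⟩ | ⟨l₁, p, nxt, l₂, h1, h2, h5, h6⟩
    · obtain ⟨p', h3, h4⟩ := Ret.congr h1 hs
      exact Or.inl ⟨p', h3, h4.trans h2⟩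
    · obtain ⟨p', h3, h4⟩ := Ret.congr h1 hs
      exact Or.inr ⟨l₁, p', nxt, l₂, h3, h4.trans h2, h5, h6⟩

theorem act_skip {p : Fin n → V} {b : V → Bool} {M : Mach V} {s t u : M.State}
    (h : Skip p b M s t) (hu : resolve p b M t = some u) :
    resolve p b M s = some u ∧ (toQP p b M).act s = (toQP p b M).act t := by
  have h1 := (resolve_skip h).trans hu
  exact ⟨h1, (act_some h1).trans (act_some hu).symm⟩

theorem complete_aux {p : Fin n → V} (hp : Function.Injective p) (b : V → Bool) (M : Mach V)
    (x : Pt n) {q : M.State} {σ : List M.Sym} {L : List V} {c : Bool}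
    (h : M.Run (plug p b x) q σ L c) : c = true →
    Dec (toQP p b M) x (σ.map some) q (L.filterMap (idx p)) ∧ ∃ u, resolve p b M q = some u := by
  induction h with
  | @halt q σ c h =>
    intro hc
    subst hc
    have h1 : resolve p b M q = some q := resolve_stopped ⟨fun t => by rw [h]; simp,
      fun v nxt => by rw [h]; simp⟩
    have h2 : (toQP p b M).act q = QAct.halt := by
      rw [act_some h1]
      simp only [act1, h] <;> rfl
    exact ⟨Dec.ofHalt (Ret.stop (Or.inr h2)) h2, q, h1⟩
  | @read q σ v nxt L c h r ih =>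
    intro hc
    obtain ⟨h1, u, h2⟩ := ih hc
    by_cases hv : ∃ i, p i = v
    · obtain ⟨i, rfl⟩ := hv
      have h3 : resolve p b M q = some q := resolve_stopped ⟨fun t => by rw [h]; simp,
        fun v nxt' h' => by
          rw [h] at h'
          simp only [Act.read.injEq] at h'
          exact ⟨i, h'.1⟩⟩
      have h4 : (toQP p b M).act q = QAct.query i nxt := by
        rw [act_some h3]
        simp only [act1, h, idx_apply p hp] <;> rfl
      rw [plug_apply p hp] at h1
      refine ⟨?_, q, h3⟩
      rw [List.filterMap_cons, idx_apply p hp]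
      exact Dec.query h4 h1
    · push Not at hv
      rw [plug_other p b x v hv] at h1 h2
      have h3 : Skip p b M q (nxt (b v)) := Or.inr ⟨v, nxt, h, hv, rfl⟩
      obtain ⟨h4, h5⟩ := act_skip h3 h2
      refine ⟨?_, u, h4⟩
      rw [List.filterMap_cons, idx_other p v hv]
      exact Dec.congr h1 h5
  | @jump q σ q' L c h r ih =>
    intro hc
    obtain ⟨h1, u, h2⟩ := ih hc
    obtain ⟨h4, h5⟩ := act_skip (b := b) (Or.inl h) h2
    exact ⟨Dec.congr h1 h5, u, h4⟩
  | @push q σ a q' L c h r ih =>
    intro hc
    obtain ⟨h1, -⟩ := ih hc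
    have h3 : resolve p b M q = some q := resolve_stopped ⟨fun t => by rw [h]; simp,
        fun v nxt => by rw [h]; simp⟩
    have h4 : (toQP p b M).act q = QAct.push (some a) q' := by
      rw [act_some h3]
      simp only [act1, h] <;> rfl
    refine ⟨?_, q, h3⟩
    rcases h1 with ⟨t, h5, h6⟩ | ⟨l₃, t, nxt', l₄, h5, h6, h7, h8⟩
    · exact Dec.ofHalt (Ret.halt h4 h5 h6) h6
    · rw [h8]
      exact Dec.cons h4 h5 h6 h7
  | @pop q a σ nxt L c h r ih =>
    intro hc
    obtain ⟨h1, -⟩ := ih hc
    have h3 : resolve p b M q = some q := resolve_stopped ⟨fun t => by rw [h]; simp,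
        fun v nxt => by rw [h]; simp⟩
    have h4 : (toQP p b M).act q = QAct.pop (fun o : Option M.Sym => o.elim q nxt) := by
      rw [act_some h3]
      simp only [act1, h] <;> rfl
    exact ⟨Or.inr ⟨[], q, _, _, Ret.stop (Or.inl ⟨_, h4⟩), h4, h1, rfl⟩, q, h3⟩

theorem toQP_complete {p : Fin n → V} (hp : Function.Injective p) (b : V → Bool) (M : Mach V)
    (x : Pt n) (L : List V) (h : M.Comp (plug p b x) L true) :
    ∃ t : M.State, Ret (toQP p b M) x M.start (L.filterMap (idx p)) t ∧
      (toQP p b M).act t = QAct.halt :=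
  (complete_aux hp b M x h rfl).1

end

end Pool.Agent.V8H39.ST
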