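import Mathlib
import Pool.Agent.V8H39.ST.Cnf
import Pool.Agent.V8H39.ST.Fix
import Pool.Agent.H538R4.SP.Sat

/-!
# 3-SAT is hard for machines with a stack that read few bits
-/

set_option autoImplicit false

open Finset

namespace Pool.Agent.V8H39.ST

open Pool.Agent.W896.MO (QP QAct Ret)
open Pool.Agent.H554R2.Sem Pool.Agent.H554R2.Cnf
open Pool.Agent.H538R4.SP (idx idx_length)

theorem genS (k : ℕ) : ∃ D : ℕ, 0 < D ∧ ∀ (V : Type) [BEq V] [LawfulBEq V]
    (Sol : (V → Bool) → Prop) (n : ℕ) (p : Fin n → V), Function.Injective p →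
    (∀ F : Finset (Finset (Fin n × Bool)), (∀ c ∈ F, c.card ≤ D) → F.card ≤ D * n →
      ∃ b : V → Bool, ∀ x : Pt n, Sol (plug p b x) ↔ Models F x) →
    ∀ q : ℕ, q ≤ n / D → ∃ b : V → Bool, ∀ M : Mach V,
      (∀ (x : Pt n) L, M.Comp (plug p b x) L true → Sol (plug p b x)) →
      Nat.card {x : Pt n // Sol (plug p b x)} ≤ 2 ^ q *
        Nat.card {x : Pt n // ∃ L, M.Comp (plug p b x) L true ∧ ∑ i, L.count (p i) ≤ k * n} →
      2 ^ q ≤ Fintype.card M.State := by
  classical
  obtain ⟨D, hD, h⟩ := final_cnfS k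
  refine ⟨D, hD, fun V _ _ Sol n p hp hred q hq => ?_⟩
  rcases Nat.lt_or_ge n D with hn | hn
  · rw [Nat.div_eq_of_lt hn] at hq
    have : q = 0 := by omega
    rw [this]
    exact ⟨fun _ => true, fun M _ _ => Fintype.card_pos_iff.2 ⟨M.start⟩⟩
  · obtain ⟨F, hF1, hF2, hF3⟩ := h n hn
    obtain ⟨b, hx⟩ := hred F hF2 hF1
    refine ⟨b, fun M hM hl => ?_⟩
    by_contra hlt
    push Not at hlt
    letI : Fintype (toQP p b M).State := M.fintype
    have h1 := hF3 (toQP p b M) M.start (lt_of_lt_of_le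
      (show Fintype.card (toQP p b M).State < 2 ^ q from hlt)
      (Nat.pow_le_pow_right (by norm_num) hq)) (by
      intro x l t h2 h3
      obtain ⟨L, h4⟩ := toQP_sound hp b M x l t h2 h3
      rw [← hx x]
      exact hM x L h4)
    have e3 : Nat.card {x : Pt n // Models F x} = Nat.card {x : Pt n // Sol (plug p b x)} :=
      Nat.card_congr (Equiv.subtypeEquivRight (fun x => (hx x).symm))
    have h3 : Nat.card {x : Pt n // ∃ L, M.Comp (plug p b x) L true ∧
          ∑ i, L.count (p i) ≤ k * n} ≤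
        Nat.card {x : Pt n // ∃ l t, Ret (toQP p b M) x M.start l t ∧
          (toQP p b M).act t = QAct.halt ∧ l.length ≤ k * n} := by
      refine Nat.card_le_card_of_injective (fun y => ⟨y.1, ?_⟩) ?_
      · obtain ⟨L, h4, h6⟩ := y.2
        obtain ⟨t, h7, h8⟩ := toQP_complete hp b M y.1 L h4
        exact ⟨L.filterMap (idx p), t, h7, h8, by rw [idx_length p hp]; exact h6⟩
      · intro y z hyz
        exact Subtype.ext (by simpa using hyz)
    have h4 := hl.trans (Nat.mul_le_mul (Nat.pow_le_pow_right (n := 2) (by norm_num) hq) h3)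
    exact absurd (e3.le.trans h4) (not_le.2 h1)

/-- Averaging over the members of a family. -/
theorem averageS {X R : Type} [Fintype X] [Fintype R] [Nonempty R] (A : R → X → Prop) (q N : ℕ)
    (h : Nat.card R * N ≤ 2 ^ q * Nat.card {u : R × X // A u.1 u.2}) :
    ∃ r, N ≤ 2 ^ q * Nat.card {x // A r x} := by
  classical
  by_contra hc
  push Not at hc
  have e2 : ∀ r, Nat.card {x // A r x} = ∑ x, if A r x then 1 else 0 := by
    intro r
    rw [Nat.card_eq_fintype_card, Fintype.card_subtype, Finset.card_filter]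
  have e3 : Nat.card {u : R × X // A u.1 u.2} = ∑ r, Nat.card {x // A r x} := by
    rw [Nat.card_eq_fintype_card, Fintype.card_subtype, Finset.card_filter,
      Fintype.sum_prod_type]
    exact Finset.sum_congr rfl (fun r _ => (e2 r).symm)
  have h3 : ∑ r : R, 2 ^ q * Nat.card {x // A r x} < ∑ _r : R, N :=
    Finset.sum_lt_sum_of_nonempty univ_nonempty (fun r _ => hc r)
  rw [Finset.sum_const, Finset.card_univ, smul_eq_mul, ← Finset.mul_sum, ← e3,
    ← Nat.card_eq_fintype_card] at h3
  omega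

end Pool.Agent.V8H39.ST
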