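import Mathlib
import Pool.Agent.V8H39.ST.Gen

/-!
# 3-SAT is hard for machines with a stack that read few bits: the final form
-/

set_option autoImplicit false

open Finset

namespace Pool.Agent.V8H39.ST

open Pool.Agent.H554R2.Sem Pool.Agent.H554R2.Cnf
open Pool.Agent.H538R4.SP (idx idx_length)

/-- The instances are satisfiable, whatever the special signs are. -/
theorem allSat {n M ℓ : ℕ} (a : Fin n → Fin M) (x : Pt n) :
    Sat3 (plug (fun i => sgn ℓ (a i)) (fun _ => true) x) := by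
  refine ⟨fun _ => true, fun c => ⟨1, ?_⟩⟩
  rw [plug_other]
  intro i h
  have h1 := congrArg (fun v : Idx M ℓ => v.2.1) h
  simp [sgn] at h1

theorem finalS (k : ℕ) : ∃ D : ℕ, 0 < D ∧ ∀ (n M ℓ : ℕ) (a : Fin n ↪ Fin M), D * n ≤ M →
    D * n ≤ 2 ^ ℓ → ∃ b : Idx M ℓ → Bool, (n / D = 0 → b = fun _ => true) ∧
      ∀ (R : Type) [Fintype R] [Nonempty R] (U : R → Mach (Idx M ℓ)),
      (∀ r (x : Pt n) L, (U r).Comp (plug (fun i => sgn ℓ (a i)) b x) L true →
        Sat3 (plug (fun i => sgn ℓ (a i)) b x)) →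
      Nat.card R * Nat.card {x : Pt n // Sat3 (plug (fun i => sgn ℓ (a i)) b x)} ≤
        2 ^ (n / D) * Nat.card {u : R × Pt n //
          ∃ L, (U u.1).Comp (plug (fun i => sgn ℓ (a i)) b u.2) L true ∧
            ∑ i, L.count (sgn ℓ (a i)) ≤ k * n} →
      ∃ r, 2 ^ (n / D) ≤ Fintype.card (U r).State := by
  obtain ⟨D1, hD1, h1⟩ := genS k
  refine ⟨(D1 + 2) * (D1 + 2), by positivity, fun n M ℓ a hM hℓ => ?_⟩
  set D := (D1 + 2) * (D1 + 2) with hD
  have hD1D : D1 ≤ D := by rw [hD]; nlinarith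
  rcases Nat.eq_zero_or_pos (n / D) with h0 | hpos'
  · rw [h0]
    exact ⟨fun _ => true, fun _ => rfl, fun R _ _ U _ _ =>
      ⟨Classical.arbitrary R, Fintype.card_pos_iff.2 ⟨(U _).start⟩⟩⟩
  have hpos : 0 < n := by
    rcases Nat.eq_zero_or_pos n with h | h
    · rw [h, Nat.zero_div] at hpos'
      omega
    · exact h
  have hp : Function.Injective (fun i => (sgn ℓ (a i) : Idx M ℓ)) :=
    fun i j h => a.injective (sgn_inj h)
  obtain ⟨b, hb⟩ := h1 (Idx M ℓ) Sat3 n _ hp (fun F hF hFc => by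
    have h3 : n + 1 + (D1 + 1) * F.card ≤ D * n := by
      have h4 : (D1 + 1) * F.card ≤ (D1 + 2) * (D1 * n) :=
        Nat.mul_le_mul (by omega) hFc
      have h5 : D * n = (D1 + 2) * (D1 * n) + (D1 + 2) * (2 * n) := by
        rw [hD]; ring
      have h6 : n + 1 ≤ (D1 + 2) * (2 * n) := by nlinarith
      omega
    exact reduction_set F hF (h3.trans hM) (h3.trans hℓ) a a.injective) (n / D)
    (Nat.div_le_div_left hD1D hD1)
  refine ⟨b, fun h => absurd h (by omega), fun R _ _ U hU hl => ?_⟩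
  obtain ⟨r, hr⟩ := averageS
    (fun r (x : Pt n) => ∃ L, (U r).Comp (plug (fun i => sgn ℓ (a i)) b x) L true ∧
          ∑ i, L.count (sgn ℓ (a i)) ≤ k * n) (n / D) _ hl
  exact ⟨r, hb (U r) (hU r) hr⟩

end Pool.Agent.V8H39.ST
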