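import Pool.Agent.V8H39.ST.Defs

/-!
# Runs are unique, and circuits are evaluated by machines with a stack
-/

set_option autoImplicit false

namespace Pool.Agent.V8H39.ST

theorem Mach.Run.unique {V : Type} {M : Mach V} {w : V → Bool} {q : M.State} {σ : List M.Sym}
    {L L' : List V} {b b' : Bool} (h : M.Run w q σ L b) (h' : M.Run w q σ L' b') :
    L = L' ∧ b = b' := by
  induction h generalizing L' b' with
  | halt h1 =>
    cases h' with
    | halt h2 => rw [h1] at h2; injection h2 with h3; exact ⟨rfl, h3⟩
    | read h2 _ => rw [h1] at h2; cases h2
    | jump h2 _ => rw [h1] at h2; cases h2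
    | push h2 _ => rw [h1] at h2; cases h2
    | pop h2 _ => rw [h1] at h2; cases h2
  | read h1 _ ih =>
    cases h' with
    | halt h2 => rw [h1] at h2; cases h2
    | read h2 r2 =>
      rw [h1] at h2
      injection h2 with h3 h4
      subst h3; subst h4
      obtain ⟨e1, e2⟩ := ih r2
      exact ⟨by rw [e1], e2⟩
    | jump h2 _ => rw [h1] at h2; cases h2
    | push h2 _ => rw [h1] at h2; cases h2
    | pop h2 _ => rw [h1] at h2; cases h2
  | jump h1 _ ih =>
    cases h' with
    | halt h2 => rw [h1] at h2; cases h2
    | read h2 _ => rw [h1] at h2; cases h2
    | jump h2 r2 =>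
      rw [h1] at h2
      injection h2 with h3
      subst h3
      exact ih r2
    | push h2 _ => rw [h1] at h2; cases h2
    | pop h2 _ => rw [h1] at h2; cases h2
  | push h1 _ ih =>
    cases h' with
    | halt h2 => rw [h1] at h2; cases h2
    | read h2 _ => rw [h1] at h2; cases h2
    | jump h2 _ => rw [h1] at h2; cases h2
    | push h2 r2 =>
      rw [h1] at h2
      injection h2 with h3 h4
      subst h3; subst h4
      exact ih r2
    | pop h2 _ => rw [h1] at h2; cases h2
  | pop h1 _ ih =>
    cases h' with
    | halt h2 => rw [h1] at h2; cases h2
    | read h2 _ => rw [h1] at h2; cases h2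
    | jump h2 _ => rw [h1] at h2; cases h2
    | push h2 _ => rw [h1] at h2; cases h2
    | pop h2 r2 =>
      rw [h1] at h2
      injection h2 with h3
      subst h3
      exact ih r2

section
variable {V : Type} (l : List (Gate V))

/-- The configurations: a node is to be evaluated, a value is returned, start or halt. -/
abbrev St : Type := Fin l.length ⊕ (Bool ⊕ Option Bool)

/-- The configuration which returns a value. -/
def ret (b : Bool) : St l := Sum.inr (Sum.inl b)

/-- The configuration in which the argument `c` of the node `i` is evaluated. -/
def sub (i : Fin l.length) (c : ℕ) : St l :=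
  if h : c < i.1 then Sum.inl ⟨c, h.trans i.2⟩ else ret l false

/-- Where the machine goes after a value has been returned to the node `i`. -/
def after (i : Fin l.length) (b : Bool) : St l :=
  match l.get i with
  | Gate.input _ => ret l b
  | Gate.const _ => ret l b
  | Gate.not _ => ret l (!b)
  | Gate.and _ c => if b then sub l i c else ret l false
  | Gate.or _ c => if b then ret l true else sub l i c

/-- The transitions. -/
def act (out : ℕ) : St l → Act V (St l) (Option (Fin l.length))
  | Sum.inl i =>
    match l.get i with
    | Gate.input v => Act.read v (fun b => ret l b)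
    | Gate.const b => Act.jump (ret l b)
    | Gate.not a => Act.push (some i) (sub l i a)
    | Gate.and a _ => Act.push (some i) (sub l i a)
    | Gate.or a _ => Act.push (some i) (sub l i a)
  | Sum.inr (Sum.inl b) =>
    Act.pop (fun s => match s with
      | none => Sum.inr (Sum.inr (some b))
      | some i => after l i b)
  | Sum.inr (Sum.inr none) =>
    Act.push none (if h : out < l.length then Sum.inl ⟨out, h⟩ else ret l false)
  | Sum.inr (Sum.inr (some b)) => Act.halt b

/-- The machine that evaluates the circuit recursively. -/
def machOf (C : Circuit V) : Mach V where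
  State := St C.nodes
  Sym := Option (Fin C.nodes.length)
  start := Sum.inr (Sum.inr none)
  act := act C.nodes C.out

theorem run_sub (C : Circuit V) (w : V → Bool) (i : Fin C.nodes.length)
    (IH : ∀ j : Fin C.nodes.length, j.1 < i.1 → ∀ (σ : List (Option (Fin C.nodes.length)))
      (L' : List V) (b' : Bool),
      (machOf C).Run w (ret C.nodes (value C.nodes w j.1)) σ L' b' →
      (machOf C).Run w (Sum.inl j) σ (reads C.nodes w j.1 ++ L') b')
    (c : ℕ) (σ : List (Option (Fin C.nodes.length))) (L' : List V) (b' : Bool)
    (h : (machOf C).Run w (ret C.nodes (if c < i.1 then value C.nodes w c else false)) σ L' b') :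
    (machOf C).Run w (sub C.nodes i c) σ
      ((if c < i.1 then reads C.nodes w c else []) ++ L') b' := by
  unfold sub
  by_cases hc : c < i.1
  · rw [dif_pos hc, if_pos hc]
    rw [if_pos hc] at h
    exact IH ⟨c, hc.trans i.2⟩ hc σ L' b' h
  · rw [dif_neg hc, if_neg hc]
    rw [if_neg hc] at h
    exact h

theorem run_eval (C : Circuit V) (w : V → Bool) : ∀ (n : ℕ) (i : Fin C.nodes.length), i.1 = n →
    ∀ (σ : List (Option (Fin C.nodes.length))) (L' : List V) (b' : Bool),
      (machOf C).Run w (ret C.nodes (value C.nodes w i.1)) σ L' b' →
      (machOf C).Run w (Sum.inl i) σ (reads C.nodes w i.1 ++ L') b' := by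
  intro n
  induction n using Nat.strong_induction_on with
  | _ n ih =>
  intro i hi σ L' b' h
  have IH : ∀ j : Fin C.nodes.length, j.1 < i.1 → ∀ (σ : List (Option (Fin C.nodes.length)))
      (L' : List V) (b' : Bool),
      (machOf C).Run w (ret C.nodes (value C.nodes w j.1)) σ L' b' →
      (machOf C).Run w (Sum.inl j) σ (reads C.nodes w j.1 ++ L') b' :=
    fun j hj => ih j.1 (hi ▸ hj) j rfl
  have hget : C.nodes[i.1]? = some (C.nodes.get i) := by
    rw [List.getElem?_eq_getElem i.2]; rfl
  have hpop : ∀ (b : Bool) (σ : List (Option (Fin C.nodes.length))) (L' : List V) (b' : Bool),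
      (machOf C).Run w (after C.nodes i b) σ L' b' →
      (machOf C).Run w (ret C.nodes b) (some i :: σ) L' b' := by
    intro b σ L' b' hr
    exact Mach.Run.pop (M := machOf C) (q := ret C.nodes b) (a := some i) rfl hr
  rw [value] at h
  rw [reads]
  rw [hget] at h ⊢
  cases hg : C.nodes.get i with
  | input v =>
    rw [hg] at h
    have ha : (machOf C).act (Sum.inl i) = Act.read v (fun b => ret C.nodes b) := by
      show act C.nodes C.out (Sum.inl i) = _
      simp only [act, hg]
      try rfl
    exact Mach.Run.read ha h
  | const b =>
    rw [hg] at h
    have ha : (machOf C).act (Sum.inl i) = Act.jump (ret C.nodes b) := by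
      show act C.nodes C.out (Sum.inl i) = _
      simp only [act, hg]
      try rfl
    exact Mach.Run.jump ha h
  | not a =>
    rw [hg] at h
    have ha : (machOf C).act (Sum.inl i) = Act.push (some i) (sub C.nodes i a) := by
      show act C.nodes C.out (Sum.inl i) = _
      simp only [act, hg]
      try rfl
    refine Mach.Run.push ha ?_
    refine run_sub C w i IH a _ _ _ ?_
    refine hpop _ _ _ _ ?_
    have : after C.nodes i (if a < i.1 then value C.nodes w a else false) =
        ret C.nodes (!(if a < i.1 then value C.nodes w a else false)) := by
      unfold after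
      simp only [hg]
    rw [this]
    exact h
  | and a c =>
    rw [hg] at h
    have ha : (machOf C).act (Sum.inl i) = Act.push (some i) (sub C.nodes i a) := by
      show act C.nodes C.out (Sum.inl i) = _
      simp only [act, hg]
      try rfl
    refine Mach.Run.push ha ?_
    simp only [List.append_assoc]
    refine run_sub C w i IH a _ _ _ ?_
    refine hpop _ _ _ _ ?_
    have e : ∀ b, after C.nodes i b = if b then sub C.nodes i c else ret C.nodes false := by
      intro b
      unfold after
      simp only [hg]
    rw [e]
    have h2 : (machOf C).Run w (ret C.nodes ((if a < i.1 then value C.nodes w a else false) &&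
        (if c < i.1 then value C.nodes w c else false))) σ L' b' := h
    clear h
    generalize (if a < i.1 then value C.nodes w a else false) = va at h2 ⊢
    cases va with
    | true =>
      rw [Bool.true_and] at h2
      exact run_sub C w i IH c _ _ _ h2
    | false =>
      rw [Bool.false_and] at h2
      exact h2
  | or a c =>
    rw [hg] at h
    have ha : (machOf C).act (Sum.inl i) = Act.push (some i) (sub C.nodes i a) := by
      show act C.nodes C.out (Sum.inl i) = _
      simp only [act, hg]
      try rfl
    refine Mach.Run.push ha ?_
    simp only [List.append_assoc]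
    refine run_sub C w i IH a _ _ _ ?_
    refine hpop _ _ _ _ ?_
    have e : ∀ b, after C.nodes i b = if b then ret C.nodes true else sub C.nodes i c := by
      intro b
      unfold after
      simp only [hg]
    rw [e]
    have h2 : (machOf C).Run w (ret C.nodes ((if a < i.1 then value C.nodes w a else false) ||
        (if c < i.1 then value C.nodes w c else false))) σ L' b' := h
    clear h
    generalize (if a < i.1 then value C.nodes w a else false) = va at h2 ⊢
    cases va with
    | true =>
      rw [Bool.true_or] at h2
      exact h2
    | false =>
      rw [Bool.false_or] at h2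
      exact run_sub C w i IH c _ _ _ h2

end

/-- Every circuit is evaluated by a machine with a stack that reads exactly the bits which the
recursive evaluation of the circuit reads. -/
theorem exists_mach {V : Type} (C : Circuit V) :
    ∃ M : Mach V, Fintype.card M.State ≤ C.nodes.length + 5 ∧
      ∀ w, M.Comp w (C.reads w) (C.eval w) := by
  refine ⟨machOf C, ?_, ?_⟩
  · show Fintype.card (Fin C.nodes.length ⊕ (Bool ⊕ Option Bool)) ≤ _
    simp
  · intro w
    show (machOf C).Run w (Sum.inr (Sum.inr none)) [] (C.reads w) (C.eval w)
    have hend : (machOf C).Run w (ret C.nodes (C.eval w)) [none] [] (C.eval w) := by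
      refine Mach.Run.pop (M := machOf C) (q := ret C.nodes (C.eval w)) (a := none) rfl ?_
      exact Mach.Run.halt rfl
    by_cases ho : C.out < C.nodes.length
    · refine Mach.Run.push (M := machOf C) (a := none) (q' := Sum.inl ⟨C.out, ho⟩) ?_ ?_
      · show act C.nodes C.out (Sum.inr (Sum.inr none)) = _
        simp only [act]
        rw [dif_pos ho]
        rfl
      · have := run_eval C w C.out ⟨C.out, ho⟩ rfl [none] [] (C.eval w) hend
        rw [List.append_nil] at this
        exact this
    · have hv : C.eval w = false := by
        unfold Circuit.eval
        rw [value, List.getElem?_eq_none (by omega)]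
      have hr : C.reads w = [] := by
        unfold Circuit.reads
        rw [reads, List.getElem?_eq_none (by omega)]
      refine Mach.Run.push (M := machOf C) (a := none) (q' := ret C.nodes false) ?_ ?_
      · show act C.nodes C.out (Sum.inr (Sum.inr none)) = _
        simp only [act]
        rw [dif_neg ho]
        rfl
      · rw [hr]
        rw [hv] at hend ⊢
        exact hend

end Pool.Agent.V8H39.ST
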